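import Mathlib
import Pool.Agent.Work.MP_b90a94_co.Bridge

/-!
Explicit formula for the number `T n` of domino tilings of the Aztec diamond of order `n` with
the knight's-move pair of cells removed, for every `n ≥ 2`.
-/

namespace Pool.Agent.Results.MP_b90a94_co.KnightFormula

open Pool.Agent.Work.MP_b90a94_co

theorem result :
    (∀ t : ℕ, 1 ≤ t → (T (4 * t) : ℚ) =
      2 ^ (2 * t * (4 * t + 1)) * ((t : ℚ) / 2 * cb t ^ 2 * (1 + cb t ^ 2))) ∧
    (∀ t : ℕ, 1 ≤ t → (T (4 * t + 1) : ℚ) =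
      2 ^ ((2 * t + 1) * (4 * t + 1)) * ((2 * (t : ℚ) + 1) / 4 * cb t ^ 2 * (1 - cb t ^ 2))) ∧
    (∀ t : ℕ, (T (4 * t + 2) : ℚ) =
      2 ^ ((2 * t + 1) * (4 * t + 3)) * ((2 * (t : ℚ) + 1) / 4 * cb t ^ 2)) ∧
    (∀ t : ℕ, (T (4 * t + 3) : ℚ) =
      2 ^ ((2 * t + 2) * (4 * t + 3)) * ((2 * (t : ℚ) + 1) / 4 * cb t * cb (t + 1))) := by
  have hc : ∀ t : ℕ, be t / 4 ^ t = cb t := by
    intro t
    unfold be cb Nat.centralBinom
    rfl
  refine ⟨?_, ?_, ?_, ?_⟩
  · intro t ht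
    obtain ⟨s, rfl⟩ : ∃ s, t = s + 1 := ⟨t - 1, by omega⟩
    have h1 := T_even (2 * s + 2) (by omega)
    have e1 : 2 * (2 * s + 2) = 4 * s + 4 := by ring
    have e2 : 2 * s + 2 - 1 = 2 * s + 1 := by omega
    rw [e1, e2] at h1
    have h2 := cnt_40 s
    rw [hc] at h2
    have e3 : 4 * (s + 1) = 4 * s + 4 := by ring
    rw [e3, h1, h2]
    have e4 : (4 * s + 4) * (4 * s + 5) / 2 = 2 * (s + 1) * (4 * s + 4 + 1) := by
      have : (4 * s + 4) * (4 * s + 5) = 2 * (2 * (s + 1) * (4 * s + 4 + 1)) := by ring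
      omega
    rw [e4]
    push_cast
    rfl
  · intro t ht
    have h1 := T_odd (2 * t) (by omega)
    have e1 : 2 * (2 * t) + 1 = 4 * t + 1 := by ring
    rw [e1] at h1
    have h2 := cnt_41 t ht
    rw [hc] at h2
    rw [h1, h2]
    have e4 : (4 * t + 1) * (4 * t + 2) / 2 = (2 * t + 1) * (4 * t + 1) := by
      have : (4 * t + 1) * (4 * t + 2) = 2 * ((2 * t + 1) * (4 * t + 1)) := by ring
      omega
    rw [e4]
  · intro t
    have h1 := T_even (2 * t + 1) (by omega)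
    have e1 : 2 * (2 * t + 1) = 4 * t + 2 := by ring
    have e2 : 2 * t + 1 - 1 = 2 * t := by omega
    rw [e1, e2] at h1
    have h2 := cnt_42 t
    rw [hc] at h2
    rw [h1, h2]
    have e4 : (4 * t + 2) * (4 * t + 3) / 2 = (2 * t + 1) * (4 * t + 3) := by
      have : (4 * t + 2) * (4 * t + 3) = 2 * ((2 * t + 1) * (4 * t + 3)) := by ring
      omega
    rw [e4]
  · intro t
    have h1 := T_odd (2 * t + 1) (by omega)
    have e1 : 2 * (2 * t + 1) + 1 = 4 * t + 3 := by ring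
    have e2 : 2 * t + 1 - 1 = 2 * t := by omega
    rw [e1, e2] at h1
    have h2 := cnt_43 t
    rw [hc, hc] at h2
    rw [h1, h2]
    have e4 : (4 * t + 3) * (4 * t + 4) / 2 = (2 * t + 2) * (4 * t + 3) := by
      have : (4 * t + 3) * (4 * t + 4) = 2 * ((2 * t + 2) * (4 * t + 3)) := by ring
      omega
    rw [e4]

end Pool.Agent.Results.MP_b90a94_co.KnightFormula
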